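import Pool.Agent.Run7.h959.F2

/-!
# MP_bb37eb_nt, Q1: the negative answer, over `ℚ`

Let `C` be the smooth completion of the curve `x (e² - x + 1) = 1`, an elliptic curve over `ℚ` on which
the divisor of `x` is divisible by two. Let `π : Y → P¹` be the family of conic bundles
`w² + x u² = t` over `C`, and let `X` be the fibre product of `Y` with itself over `P¹`, with respect
to `t` and `(3 t + 2) / (4 t + 3)`. The fibration is `p = π ∘ pr₁ : X → P¹`.

* On all but four fibres over rational points the classes `(x, c)`, `c ∈ ℚ*`, of both factors obstruct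
  the adelic points.
* All Brauer classes of `X` are constant on the adelic points with `x = e = 1` in both factors and
  generic `w, u`; such adelic points exist.
-/

set_option linter.all false

open CategoryTheory CategoryTheory.Limits AlgebraicGeometry Run7.h959

noncomputable section

namespace Pool.Agent.Results.MP_bb37eb_nt.Counterexample

/-- **The negative answer to Q1.**  There are a smooth, projective, geometrically integral variety
`X` over `ℚ` and a proper surjective morphism `p : X → P¹`, with smooth generic fibre and with
geometrically integral fibres, such that for all but finitely many `P ∈ P¹(ℚ)` the closure of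
`X_P(ℚ)` in `X_P(A)` is `X_P(A)^Br` (both are empty), but the closure of `X(ℚ)` (which is empty) in
`X(A)` is strictly smaller than `X(A)^Br`. -/
theorem result : ∃ (X : Scheme.{0}) (s : X ⟶ SQ) (p : X ⟶ P1) (S : Set (SQ ⟶ P1)),
    -- `X` is a smooth projective geometrically integral variety over `ℚ`
    Smooth s ∧ GeometricallyIntegral s ∧
    (∃ (N : Type) (_ : Finite N) (c : X ⟶ PJ N), IsClosedImmersion c ∧ c ≫ sJ N = s) ∧
    -- `p` is a proper surjective morphism over `ℚ`, its fibres are geometrically integral, and its
    -- generic fibre is smooth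
    p ≫ sJ (Fin 2) = s ∧ IsProper p ∧ Surjective p ∧ GeometricallyIntegral p ∧
    (∀ η : P1, IsGenericPoint η (Set.univ : Set P1) → Smooth (p.fiberToSpecResidueField η)) ∧
    -- all but finitely many fibres are smooth, have no rational point, and each adelic point is
    -- obstructed: a Brauer class is nontrivial at it at exactly one place
    S.Finite ∧
    (∀ P : SQ ⟶ P1, P ∉ S → Smooth (pullback.snd p P) ∧ IsEmpty (SQ ⟶ pullback p P) ∧
      ∀ M : Adl (pullback p P), ∃ (α : BrClass (pullback p P)) (v₀ : Pl),
        α.val (Kv v₀) (M v₀) ≠ 1 ∧ ∀ v : Pl, v ≠ v₀ → α.val (Kv v) (M v) = 1) ∧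
    -- `X` has no rational point, but an adelic point on which every Brauer class takes the local
    -- values of a class of `Br ℚ`
    IsEmpty (SQ ⟶ X) ∧
    (∃ M : Adl X, ∀ α : BrClass X, ∃ D : Br ℚ, ∀ v : Pl, α.val (Kv v) (M v) = locBr v D) ∧
    -- the same in terms of the local invariants and the Brauer-Manin set
    ∀ I : LocInv, (∀ P : SQ ⟶ P1, P ∉ S → ∀ τ : TopologicalSpace (Adl (pullback p P)),
        @closure _ τ (ratPts (pullback p P)) = BMset I (pullback p P)) ∧
      ∀ τ : TopologicalSpace (Adl X), @closure _ τ (ratPts X) ⊂ BMset I X := by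
  haveI := pX_gi
  refine ⟨XX, sX, pX, exc, sX_smooth, sX_gi, XX_proj, toQ_unique _ _, pX_proper,
    inferInstance, pX_gi, gen_smooth, exc_finite,
    fun P hP => ⟨fibre_smooth P hP, fibre_empty P, fibre_obs P hP⟩, ⟨XX_empty⟩, total_point, ?_⟩
  intro I
  refine ⟨fun P hP τ => ?_, fun τ => ?_⟩
  · rw [ratPts_empty (fibre_empty P), BM_empty I (fibre_obs P hP)]
    exact closure_empty
  · rw [ratPts_empty ⟨XX_empty⟩, closure_empty]
    obtain ⟨M, hM⟩ := total_point
    exact Set.empty_ssubset.2 ⟨M, BM_nonempty I M hM⟩

end Pool.Agent.Results.MP_bb37eb_nt.Counterexample
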